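import Pool.Agent.W541.DL.Stm

/-! Project DL, part LAWL: one-point laws of the directed landscape. -/

set_option autoImplicit false

namespace Pool.Agent.W915.DL.LAWL

open MeasureTheory ProbabilityTheory Filter Topology
open Pool.Agent.W541.DL

lemma meas_pre (hM : S_MEASK) {Ω : Type} [MeasurableSpace Ω] {P : Measure Ω}
    {W : ℕ → ℝ → Ω → ℝ} (h : IsBM P W) (n : ℕ) (x y : ℝ) :
    Measurable (fun ω => preSheet (env W ω) n x y) := by
  unfold preSheet blpp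
  refine Measurable.const_mul ?_ _
  refine Measurable.sub_const (Measurable.sub_const ?_ _) _
  exact hM Ω inferInstance W n _ h.cont (fun τ _ k _ => (h.meas _ _).sub (h.meas _ _))

lemma prob {Ω : Type} [MeasurableSpace Ω] {P : Measure Ω}
    {W : ℕ → ℝ → Ω → ℝ} (h : IsBM P W) : IsProbabilityMeasure P :=
  h.gauss.isProbabilityMeasure

lemma meas_val {Ω : Type} [MeasurableSpace Ω] {P : Measure Ω} {L : Ω → C(R4, ℝ)}
    (h : IsDirectedLandscape P L) (x s y t : ℝ) : Measurable (fun ω => val (L ω) x s y t) := by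
  unfold val
  by_cases hst : s < t
  · simp only [dif_pos hst]
    exact h.meas _
  · simp only [dif_neg hst]
    exact measurable_const

/-- convergence in distribution of the one point values -/
lemma tid (hM : S_MEASK) {Ω' : Type} [MeasurableSpace Ω'] {P' : Measure Ω'}
    {W : ℕ → ℝ → Ω' → ℝ} (h : IsBM P' W) {Ω : Type} [MeasurableSpace Ω] {P : Measure Ω}
    (S : ℝ → ℝ → Ω → ℝ) (hS : IsAirySheet P' W P S) (x y : ℝ) (hm : Measurable (S x y))
    [IsProbabilityMeasure P'] [IsProbabilityMeasure P] :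
    TendstoInDistribution (fun (n : ℕ) ω => preSheet (env W ω) n x y) atTop (S x y)
      (fun _ => P') P where
  forall_aemeasurable n := (meas_pre hM h n x y).aemeasurable
  aemeasurable_limit := hm.aemeasurable
  tendsto := by
    refine ProbabilityMeasure.tendsto_iff_forall_integral_tendsto.2 fun f => ?_
    have h1 := hS.2 1 (fun _ => (x, y)) (fun v => f (v 0)) (by fun_prop)
      ⟨‖f‖, fun v => f.norm_coe_le_norm _⟩
    have e1 : ∀ n : ℕ, ∫ z, f z ∂(P'.map (fun ω => preSheet (env W ω) n x y)) =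
        ∫ ω, f (preSheet (env W ω) n x y) ∂P' := fun n =>
      integral_map (meas_pre hM h n x y).aemeasurable f.continuous.aestronglyMeasurable
    have e2 : ∫ z, f z ∂(P.map (S x y)) = ∫ ω, f (S x y ω) ∂P :=
      integral_map hm.aemeasurable f.continuous.aestronglyMeasurable
    have h2 : Tendsto (fun n : ℕ => ∫ z, f z ∂(P'.map (fun ω => preSheet (env W ω) n x y))) atTop
        (𝓝 (∫ z, f z ∂(P.map (S x y)))) := by
      rw [e2]
      simp only [e1]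
      exact h1
    exact h2


/-- the rescaled value as `bar` -/
lemma pre_eq_bar (w : ℕ → ℝ → ℝ) (n : ℕ) (hn : 1 ≤ n) (a b : ℝ) :
    preSheet w n a b = bar w n 0 n (2 * a / (n : ℝ) ^ ((1 : ℝ) / 3))
      (2 * a / (n : ℝ) ^ ((1 : ℝ) / 3) + (1 + 2 * (b - a) / (n : ℝ) ^ ((1 : ℝ) / 3))) := by
  have hn' : (0 : ℝ) < n := by exact_mod_cast hn
  unfold preSheet bar
  have e1 : 2 * a / (n : ℝ) ^ ((1 : ℝ) / 3) + (1 + 2 * (b - a) / (n : ℝ) ^ ((1 : ℝ) / 3)) =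
      1 + 2 * b / (n : ℝ) ^ ((1 : ℝ) / 3) := by ring
  have e2 : Real.sqrt n * (2 * (b - a) / (n : ℝ) ^ ((1 : ℝ) / 3)) =
      2 * (b - a) * (n : ℝ) ^ ((1 : ℝ) / 6) := by
    have : Real.sqrt n = (n : ℝ) ^ ((1 : ℝ) / 3) * (n : ℝ) ^ ((1 : ℝ) / 6) := by
      rw [← Real.rpow_add hn', Real.sqrt_eq_rpow]; norm_num
    rw [this]
    have h3 : (n : ℝ) ^ ((1 : ℝ) / 3) ≠ 0 := (Real.rpow_pos_of_pos hn' _).ne'
    field_simp
  have e3 : (n : ℝ) / Real.sqrt n = Real.sqrt n := Real.div_sqrt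
  rw [e1, e3]
  simp only [zero_add]
  congr 1
  have e4 : 1 + 2 * b / (n : ℝ) ^ ((1 : ℝ) / 3) - 2 * a / (n : ℝ) ^ ((1 : ℝ) / 3) =
      1 + 2 * (b - a) / (n : ℝ) ^ ((1 : ℝ) / 3) := by ring
  rw [e4, mul_add, e2]
  ring

lemma law_n (hO : S_ONE) (hM : S_MEASK) {Ω' : Type} [MeasurableSpace Ω'] {P' : Measure Ω'}
    {W : ℕ → ℝ → Ω' → ℝ} (h : IsBM P' W) [IsProbabilityMeasure P'] (n : ℕ) (hn : 1 ≤ n) (a b : ℝ)
    (hd : 0 ≤ 1 + 2 * (b - a) / (n : ℝ) ^ ((1 : ℝ) / 3)) :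
    P'.map (fun ω => preSheet (env W ω) n a b) =
      P'.map (fun ω => Real.sqrt (1 + 2 * (b - a) / (n : ℝ) ^ ((1 : ℝ) / 3)) *
        preSheet (env W ω) n 0 0 - (n : ℝ) ^ ((2 : ℝ) / 3) *
          (Real.sqrt (1 + 2 * (b - a) / (n : ℝ) ^ ((1 : ℝ) / 3)) - 1) ^ 2) := by
  have m1 := meas_pre hM h n a b
  have m2 : Measurable (fun ω => Real.sqrt (1 + 2 * (b - a) / (n : ℝ) ^ ((1 : ℝ) / 3)) *
        preSheet (env W ω) n 0 0 - (n : ℝ) ^ ((2 : ℝ) / 3) *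
          (Real.sqrt (1 + 2 * (b - a) / (n : ℝ) ^ ((1 : ℝ) / 3)) - 1) ^ 2) :=
    ((meas_pre hM h n 0 0).const_mul _).sub_const _
  have : IsProbabilityMeasure (P'.map (fun ω => preSheet (env W ω) n a b)) :=
    Measure.isProbabilityMeasure_map m1.aemeasurable
  refine Measure.ext_of_Ici _ _ fun l => ?_
  rw [Measure.map_apply m1 measurableSet_Ici, Measure.map_apply m2 measurableSet_Ici]
  have h1 := hO Ω' P' W n (2 * a / (n : ℝ) ^ ((1 : ℝ) / 3))
    (1 + 2 * (b - a) / (n : ℝ) ^ ((1 : ℝ) / 3)) l h hn hd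
  simp only [← pre_eq_bar _ n hn a b] at h1
  exact (measureReal_eq_measureReal_iff).1 h1

lemma kappa (c : ℝ) : Tendsto (fun n : ℕ => Real.sqrt (1 + 2 * c / (n : ℝ) ^ ((1 : ℝ) / 3))) atTop
      (𝓝 1) ∧
    Tendsto (fun n : ℕ => (n : ℝ) ^ ((2 : ℝ) / 3) *
      (Real.sqrt (1 + 2 * c / (n : ℝ) ^ ((1 : ℝ) / 3)) - 1) ^ 2) atTop (𝓝 (c ^ 2)) ∧
    ∀ᶠ n : ℕ in atTop, 0 ≤ 1 + 2 * c / (n : ℝ) ^ ((1 : ℝ) / 3) := by
  have h0 : Tendsto (fun n : ℕ => 1 + 2 * c / (n : ℝ) ^ ((1 : ℝ) / 3)) atTop (𝓝 1) := by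
    have h1 : Tendsto (fun n : ℕ => (n : ℝ) ^ ((1 : ℝ) / 3)) atTop atTop :=
      (tendsto_rpow_atTop (by norm_num)).comp tendsto_natCast_atTop_atTop
    have h2 := (tendsto_const_nhds (x := 2 * c)).div_atTop h1
    simpa using (tendsto_const_nhds (x := (1 : ℝ))).add h2
  have hs : Tendsto (fun n : ℕ => Real.sqrt (1 + 2 * c / (n : ℝ) ^ ((1 : ℝ) / 3))) atTop
      (𝓝 1) := by
    have := (Real.continuous_sqrt.tendsto 1).comp h0
    rw [Real.sqrt_one] at this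
    exact this
  have hpos : ∀ᶠ n : ℕ in atTop, 0 < 1 + 2 * c / (n : ℝ) ^ ((1 : ℝ) / 3) :=
    h0.eventually (lt_mem_nhds one_pos)
  refine ⟨hs, ?_, hpos.mono fun n h => h.le⟩
  have h3 : Tendsto (fun n : ℕ => 4 * c ^ 2 /
      (Real.sqrt (1 + 2 * c / (n : ℝ) ^ ((1 : ℝ) / 3)) + 1) ^ 2) atTop (𝓝 (c ^ 2)) := by
    have h4 := (tendsto_const_nhds (x := 4 * c ^ 2)).div ((hs.add_const 1).pow 2) (by norm_num)
    have e : 4 * c ^ 2 / (1 + 1) ^ 2 = c ^ 2 := by ring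
    rwa [e] at h4
  refine h3.congr' ?_
  filter_upwards [hpos, eventually_ge_atTop 1] with n h hn
  have hn' : (0 : ℝ) < n := by exact_mod_cast hn
  set d := 1 + 2 * c / (n : ℝ) ^ ((1 : ℝ) / 3) with hd
  have hsq : Real.sqrt d ^ 2 = d := Real.sq_sqrt h.le
  have hp : 0 < Real.sqrt d + 1 := by positivity
  have e1 : (n : ℝ) ^ ((2 : ℝ) / 3) = ((n : ℝ) ^ ((1 : ℝ) / 3)) ^ 2 := by
    rw [← Real.rpow_natCast, ← Real.rpow_mul hn'.le]; norm_num
  have h3' : (n : ℝ) ^ ((1 : ℝ) / 3) ≠ 0 := (Real.rpow_pos_of_pos hn' _).ne'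
  have e2 : (n : ℝ) ^ ((1 : ℝ) / 3) * (d - 1) = 2 * c := by
    rw [hd]; field_simp; ring
  rw [e1, div_eq_iff (by positivity)]
  have e3 : (Real.sqrt d - 1) * (Real.sqrt d + 1) = d - 1 := by nlinarith
  calc 4 * c ^ 2 = (2 * c) ^ 2 := by ring
    _ = ((n : ℝ) ^ ((1 : ℝ) / 3) * ((Real.sqrt d - 1) * (Real.sqrt d + 1))) ^ 2 := by
        rw [e3, e2]
    _ = _ := by ring

theorem main (hO : S_ONE) (hM : S_MEASK) : S_LAWL := by
  intro Ω _ P L hL x y s t hst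
  obtain ⟨Ω', mΩ', P', W, hW, hS⟩ := hL.airy
  have i1 : IsProbabilityMeasure P := hL.prob
  have i2 : IsProbabilityMeasure P' := prob hW
  set τ : ℝ := (t - s) ^ ((1 : ℝ) / 3) with hτ
  have hts : 0 < t - s := by linarith
  have hτ0 : 0 < τ := Real.rpow_pos_of_pos hts _
  have hτ3 : τ ^ 3 = t - s := by
    rw [hτ, ← Real.rpow_natCast, ← Real.rpow_mul hts.le]; norm_num
  set a := x / τ ^ 2 with ha
  set b := y / τ ^ 2 with hb
  -- the two limits
  have hm1 : Measurable (fun ω => τ⁻¹ * val (L ω) (τ ^ 2 * a) s (τ ^ 2 * b) (s + τ ^ 3)) :=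
    (meas_val hL _ _ _ _).const_mul _
  have hm0 : Measurable (fun ω => (1 : ℝ)⁻¹ * val (L ω) (1 ^ 2 * 0) 0 (1 ^ 2 * 0) (0 + 1 ^ 3)) :=
    (meas_val hL _ _ _ _).const_mul _
  have t1 := tid hM hW _ (hS s τ hτ0) a b hm1
  have t0 := tid hM hW _ (hS 0 1 one_pos) 0 0 hm0
  obtain ⟨k1, k2, k3⟩ := kappa (b - a)
  have hY : TendstoInMeasure P' (fun (n : ℕ) (_ : Ω') =>
      (Real.sqrt (1 + 2 * (b - a) / (n : ℝ) ^ ((1 : ℝ) / 3)),
        (n : ℝ) ^ ((2 : ℝ) / 3) *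
          (Real.sqrt (1 + 2 * (b - a) / (n : ℝ) ^ ((1 : ℝ) / 3)) - 1) ^ 2)) atTop
      (fun _ => ((1 : ℝ), (b - a) ^ 2)) := by
    refine tendstoInMeasure_of_tendsto_ae (fun n => aestronglyMeasurable_const) ?_
    exact Eventually.of_forall fun ω => k1.prodMk_nhds k2
  have t2 := t0.continuous_comp_prodMk_of_tendstoInMeasure_const
    (g := fun z : ℝ × (ℝ × ℝ) => z.2.1 * z.1 - z.2.2) (by fun_prop) hY
    (fun n => aemeasurable_const)
  have hlaw : P.map (fun ω => τ⁻¹ * val (L ω) (τ ^ 2 * a) s (τ ^ 2 * b) (s + τ ^ 3)) =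
      P.map (fun ω => 1 * ((1 : ℝ)⁻¹ * val (L ω) (1 ^ 2 * 0) 0 (1 ^ 2 * 0) (0 + 1 ^ 3)) -
        (b - a) ^ 2) := by
    have hev : (fun n : ℕ => (⟨P'.map (fun ω => preSheet (env W ω) n a b),
        Measure.isProbabilityMeasure_map (t1.forall_aemeasurable n)⟩ : ProbabilityMeasure ℝ)) =ᶠ[atTop]
        (fun n : ℕ => ⟨P'.map (fun ω => Real.sqrt (1 + 2 * (b - a) / (n : ℝ) ^ ((1 : ℝ) / 3)) *
        preSheet (env W ω) n 0 0 - (n : ℝ) ^ ((2 : ℝ) / 3) *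
          (Real.sqrt (1 + 2 * (b - a) / (n : ℝ) ^ ((1 : ℝ) / 3)) - 1) ^ 2),
          Measure.isProbabilityMeasure_map (t2.forall_aemeasurable n)⟩) := by
      filter_upwards [k3, eventually_ge_atTop 1] with n h hn
      exact Subtype.ext (law_n hO hM hW n hn a b h)
    have h3 := Tendsto.congr' (β := ProbabilityMeasure ℝ) hev t1.tendsto
    have h4 := tendsto_nhds_unique h3 t2.tendsto
    exact congrArg Subtype.val h4
  have e1 : τ ^ 2 * a = x := by rw [ha]; field_simp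
  have e2 : τ ^ 2 * b = y := by rw [hb]; field_simp
  have e3 : s + τ ^ 3 = t := by rw [hτ3]; ring
  rw [e1, e2, e3] at hlaw
  simp only [inv_one, one_mul, mul_zero, one_pow, zero_add] at hlaw
  refine ⟨(meas_val hL _ _ _ _).aemeasurable,
    (((meas_val hL _ _ _ _).const_mul _).sub_const _).aemeasurable, ?_⟩
  have h5 := congrArg (Measure.map (fun v : ℝ => τ * v)) hlaw
  rw [Measure.map_map (by fun_prop) ((meas_val hL _ _ _ _).const_mul _),
    Measure.map_map (by fun_prop) ((meas_val hL _ _ _ _).sub_const _)] at h5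
  have e4 : ((fun v : ℝ => τ * v) ∘ fun ω => τ⁻¹ * val (L ω) x s y t) =
      fun ω => val (L ω) x s y t := by
    funext ω; simp only [Function.comp]; field_simp
  have e5 : ((fun v : ℝ => τ * v) ∘ fun ω => val (L ω) 0 0 0 1 - (b - a) ^ 2) =
      fun ω => τ * val (L ω) 0 0 0 1 - (x - y) ^ 2 / (t - s) := by
    funext ω; simp only [Function.comp]
    rw [← hτ3, ha, hb]; field_simp; ring
  rwa [e4, e5] at h5

end Pool.Agent.W915.DL.LAWL
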